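import Pool.Agent.H761R2.SV.Pomp
import Pool.Agent.H761R2.SV.Quad

/-!
# Cauchy transforms of bounded functions, uniform approximation by rational functions
-/

set_option autoImplicit false
set_option linter.unusedSectionVars false

namespace Pool.Agent.R546.RX

open Complex MeasureTheory Filter Topology Metric Set
open Pool.Agent.H761R2.SV (dbar)
open Pool.Agent.H761R2.SV.Quad (sing sing_nonneg integrable_sing integral_sing)

/-! ### The kernel -/

theorem inv_le_sing {ρ : ℝ} (hρ : 0 < ρ) (z s : ℂ) : ‖(z - s)⁻¹‖ ≤ sing ρ z s + ρ⁻¹ := by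
  unfold sing
  by_cases h : z - s ∈ ball (0 : ℂ) ρ
  · rw [indicator_of_mem h, norm_inv]
    have : 0 ≤ ρ⁻¹ := inv_nonneg.2 hρ.le
    linarith
  · rw [indicator_of_notMem h, norm_inv, zero_add]
    rw [mem_ball_zero_iff, not_lt] at h
    exact inv_anti₀ hρ h

theorem integrableOn_ker {S : Set ℂ} (hfin : volume S ≠ ⊤) (z : ℂ) :
    IntegrableOn (fun s => ‖(z - s)⁻¹‖) S := by
  have h1 : IntegrableOn (fun s => sing 1 z s + (1 : ℝ)⁻¹) S :=
    (integrable_sing 1 z).integrableOn.add (integrableOn_const hfin)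
  refine Integrable.mono' h1 ?_ ?_
  · exact Measurable.aestronglyMeasurable (by fun_prop)
  · refine Eventually.of_forall fun s => ?_
    rw [norm_norm]
    exact inv_le_sing one_pos z s

theorem ker_le {S : Set ℂ} (hfin : volume S ≠ ⊤) {ρ : ℝ} (hρ : 0 < ρ)
    (z : ℂ) : ∫ s in S, ‖(z - s)⁻¹‖ ≤ 2 * Real.pi * ρ + volume.real S * ρ⁻¹ := by
  have h1 : IntegrableOn (fun s => sing ρ z s) S := (integrable_sing ρ z).integrableOn
  have h2 : IntegrableOn (fun _ : ℂ => ρ⁻¹) S := integrableOn_const hfin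
  calc ∫ s in S, ‖(z - s)⁻¹‖ ≤ ∫ s in S, (sing ρ z s + ρ⁻¹) :=
        integral_mono (integrableOn_ker hfin z) (h1.add h2) fun s => inv_le_sing hρ z s
    _ = (∫ s in S, sing ρ z s) + ∫ s in S, ρ⁻¹ := integral_add h1 h2
    _ ≤ 2 * Real.pi * ρ + volume.real S * ρ⁻¹ := by
        refine add_le_add ?_ ?_
        · rw [← integral_sing hρ.le z]
          exact setIntegral_le_integral (integrable_sing ρ z)
            (Eventually.of_forall fun s => sing_nonneg ρ z s)
        · rw [setIntegral_const, smul_eq_mul]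

/-- bounded functions with bounded support -/
structure BM (h : ℂ → ℂ) : Prop where
  meas : AEStronglyMeasurable h volume
  bdd : ∃ M : ℝ, 0 ≤ M ∧ ∀ s, ‖h s‖ ≤ M
  supp : ∃ R : ℝ, 0 < R ∧ ∀ s, R < ‖s‖ → h s = 0

theorem BM.integrable {h : ℂ → ℂ} (hh : BM h) (z : ℂ) :
    Integrable (fun s => h s * (z - s)⁻¹) := by
  obtain ⟨M, hM0, hM⟩ := hh.bdd
  obtain ⟨R, hR0, hR⟩ := hh.supp
  have h1 : Integrable ((closedBall (0 : ℂ) R).indicator fun s => ‖(z - s)⁻¹‖) :=
    (integrableOn_ker (isCompact_closedBall _ _).measure_lt_top.ne z).integrable_indicator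
      measurableSet_closedBall
  refine Integrable.mono' (h1.const_mul M) ?_ ?_
  · exact hh.meas.mul (Measurable.aestronglyMeasurable (by fun_prop))
  · refine Eventually.of_forall fun s => ?_
    rw [norm_mul]
    by_cases hs : s ∈ closedBall (0 : ℂ) R
    · rw [indicator_of_mem hs]
      exact mul_le_mul_of_nonneg_right (hM s) (norm_nonneg _)
    · rw [indicator_of_notMem hs, mul_zero]
      rw [mem_closedBall_zero_iff, not_le] at hs
      rw [hR s hs, norm_zero, zero_mul]

/-- the Cauchy transform -/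
noncomputable def Po (h : ℂ → ℂ) (z : ℂ) : ℂ := ∫ s, h s * (z - s)⁻¹

theorem Po_le {h : ℂ → ℂ} {S : Set ℂ} (hS : MeasurableSet S) (hfin : volume S ≠ ⊤) {M : ℝ}
    (h1 : ∀ s ∈ S, ‖h s‖ ≤ M) (h2 : ∀ s, s ∉ S → h s = 0) (z : ℂ) :
    ‖Po h z‖ ≤ M * ∫ s in S, ‖(z - s)⁻¹‖ := by
  unfold Po
  have h3 : ∫ s, h s * (z - s)⁻¹ = ∫ s in S, h s * (z - s)⁻¹ := by
    rw [← integral_indicator hS]
    congr 1
    funext s
    by_cases hs : s ∈ S
    · rw [indicator_of_mem hs]
    · rw [indicator_of_notMem hs, h2 s hs, zero_mul]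
  rw [h3, ← integral_const_mul]
  refine norm_integral_le_of_norm_le ((integrableOn_ker hfin z).const_mul M) ?_
  refine (ae_restrict_iff' hS).2 (Eventually.of_forall fun s hs => ?_)
  rw [norm_mul]
  exact mul_le_mul_of_nonneg_right (h1 s hs) (norm_nonneg _)

/-! ### Uniform approximation by rational functions -/

/-- `u` is on `X` a uniform limit of rational functions with poles off `X` -/
def Apx (X : Set ℂ) (u : ℂ → ℂ) : Prop := ∀ ε : ℝ, 0 < ε → ∃ p q : Polynomial ℂ,
  (∀ z ∈ X, q.eval z ≠ 0) ∧ ∀ z ∈ X, ‖u z - p.eval z / q.eval z‖ ≤ ε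

variable {X : Set ℂ}

theorem Apx.congr {u v : ℂ → ℂ} (hu : Apx X u) (h : ∀ z ∈ X, v z = u z) : Apx X v := by
  intro ε hε
  obtain ⟨p, q, hq, hp⟩ := hu ε hε
  exact ⟨p, q, hq, fun z hz => by rw [h z hz]; exact hp z hz⟩

theorem Apx.lim {u : ℂ → ℂ} (h : ∀ ε : ℝ, 0 < ε → ∃ v, Apx X v ∧ ∀ z ∈ X, ‖u z - v z‖ ≤ ε) :
    Apx X u := by
  intro ε hε
  obtain ⟨v, hv, hd⟩ := h (ε / 2) (by linarith)
  obtain ⟨p, q, hq, hp⟩ := hv (ε / 2) (by linarith)
  refine ⟨p, q, hq, fun z hz => ?_⟩
  have h1 : u z - p.eval z / q.eval z = (u z - v z) + (v z - p.eval z / q.eval z) := by ring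
  rw [h1]
  refine (norm_add_le _ _).trans ?_
  linarith [hd z hz, hp z hz]

theorem apx_rat (p q : Polynomial ℂ) (hq : ∀ z ∈ X, q.eval z ≠ 0) :
    Apx X (fun z => p.eval z / q.eval z) :=
  fun ε hε => ⟨p, q, hq, fun z _ => by rw [sub_self, norm_zero]; exact hε.le⟩

theorem apx_zero : Apx X (fun _ => 0) := by
  have := apx_rat (X := X) 0 1 (by simp)
  simpa using this

theorem Apx.add {u v : ℂ → ℂ} (hu : Apx X u) (hv : Apx X v) : Apx X (fun z => u z + v z) := by
  intro ε hε
  obtain ⟨p, q, hq, hp⟩ := hu (ε / 2) (by linarith)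
  obtain ⟨p', q', hq', hp'⟩ := hv (ε / 2) (by linarith)
  refine ⟨p * q' + p' * q, q * q', fun z hz => ?_, fun z hz => ?_⟩
  · rw [Polynomial.eval_mul]
    exact mul_ne_zero (hq z hz) (hq' z hz)
  · have h1 : u z + v z - (p * q' + p' * q).eval z / (q * q').eval z =
        (u z - p.eval z / q.eval z) + (v z - p'.eval z / q'.eval z) := by
      have := hq z hz
      have := hq' z hz
      simp only [Polynomial.eval_mul, Polynomial.eval_add]
      field_simp
      ring
    rw [h1]
    refine (norm_add_le _ _).trans ?_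
    linarith [hp z hz, hp' z hz]

theorem Apx.const_mul {u : ℂ → ℂ} (hu : Apx X u) (c : ℂ) : Apx X (fun z => c * u z) := by
  intro ε hε
  have hc : 0 < ‖c‖ + 1 := by positivity
  obtain ⟨p, q, hq, hp⟩ := hu (ε / (‖c‖ + 1)) (by positivity)
  refine ⟨Polynomial.C c * p, q, hq, fun z hz => ?_⟩
  have h1 : c * u z - (Polynomial.C c * p).eval z / q.eval z =
      c * (u z - p.eval z / q.eval z) := by
    simp only [Polynomial.eval_mul, Polynomial.eval_C]
    ring
  rw [h1, norm_mul]
  calc ‖c‖ * ‖u z - p.eval z / q.eval z‖ ≤ (‖c‖ + 1) * (ε / (‖c‖ + 1)) :=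
        mul_le_mul (by linarith) (hp z hz) (norm_nonneg _) hc.le
    _ = ε := by field_simp

theorem Apx.sub {u v : ℂ → ℂ} (hu : Apx X u) (hv : Apx X v) : Apx X (fun z => u z - v z) := by
  refine (hu.add (hv.const_mul (-1))).congr fun z _ => ?_
  ring

theorem Apx.sum {ι : Type*} (s : Finset ι) {u : ι → ℂ → ℂ} (h : ∀ i ∈ s, Apx X (u i)) :
    Apx X (fun z => ∑ i ∈ s, u i z) := by
  classical
  induction s using Finset.induction_on with
  | empty => simpa using apx_zero
  | insert a s ha ih =>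
    simp only [Finset.sum_insert ha]
    exact (h a (Finset.mem_insert_self a s)).add
      (ih fun i hi => h i (Finset.mem_insert_of_mem hi))

theorem apx_ker {s : ℂ} (hs : s ∉ X) : Apx X (fun z => (z - s)⁻¹) := by
  have := apx_rat (X := X) 1 (Polynomial.X - Polynomial.C s) (fun z hz => by
    simp only [Polynomial.eval_sub, Polynomial.eval_X, Polynomial.eval_C]
    intro h
    exact hs ((sub_eq_zero.1 h) ▸ hz))
  refine this.congr fun z _ => ?_
  simp

/-! ### Thin neighbourhoods -/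

theorem vol_near {K : Set ℂ} (hK : IsCompact K) {κ : ℝ} (hκ : 0 < κ) :
    ∃ t : ℝ, 0 < t ∧ ∀ r, r ≤ t → volume.real (cthickening r K \ K) < κ := by
  have hfin : volume K ≠ ⊤ := hK.measure_lt_top.ne
  have h1 : Tendsto (fun r => volume (cthickening r K)) (𝓝 0) (𝓝 (volume K)) :=
    tendsto_measure_cthickening_of_isCompact hK
  have h2 := (ENNReal.tendsto_toReal hfin).comp h1
  rw [Metric.tendsto_nhds] at h2
  obtain ⟨t, ht, h3⟩ := Metric.eventually_nhds_iff.1 (h2 κ hκ)
  refine ⟨t / 2, by linarith, fun r hr => ?_⟩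
  have hmono : cthickening r K ⊆ cthickening (t / 2) K := cthickening_mono hr K
  have hcomp : IsCompact (cthickening (t / 2) K) := hK.cthickening
  refine (measureReal_mono (sdiff_subset_sdiff_left hmono)
    ((measure_mono sdiff_subset).trans_lt hcomp.measure_lt_top).ne).trans_lt ?_
  have h4 := @h3 (t / 2) (by rw [Real.dist_eq, sub_zero, abs_of_pos (by linarith)]; linarith)
  rw [measureReal_sdiff (self_subset_cthickening K) hK.measurableSet hcomp.measure_lt_top.ne]
  have h5 := (abs_lt.1 (by simpa [Real.dist_eq] using h4 :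
    |(volume (cthickening (t / 2) K)).toReal - (volume K).toReal| < κ)).2
  exact h5

/-! ### Cauchy transforms of functions vanishing on `X` -/

/-- the regularised kernel -/
noncomputable def kt (X : Set ℂ) (t : ℝ) (ht : 0 < t) : C(ℂ, C(X, ℂ)) :=
  ContinuousMap.curry ⟨fun p : ℂ × X => (starRingEnd ℂ) ((p.2 : ℂ) - p.1) /
    ((max (‖(p.2 : ℂ) - p.1‖ ^ 2) (t ^ 2) : ℝ) : ℂ), by
      refine Continuous.div (by fun_prop) (by fun_prop) fun p => ?_
      have : 0 < max (‖(p.2 : ℂ) - p.1‖ ^ 2) (t ^ 2) := lt_max_of_lt_right (by positivity)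
      exact_mod_cast this.ne'⟩

theorem kt_apply {t : ℝ} (ht : 0 < t) {s : ℂ} {z : X} (h : t ≤ ‖(z : ℂ) - s‖) :
    kt X t ht s z = ((z : ℂ) - s)⁻¹ := by
  show (starRingEnd ℂ) ((z : ℂ) - s) / ((max (‖(z : ℂ) - s‖ ^ 2) (t ^ 2) : ℝ) : ℂ) = _
  rw [max_eq_left (pow_le_pow_left₀ ht.le h 2), Complex.inv_def, Complex.normSq_eq_norm_sq,
    div_eq_mul_inv, Complex.ofReal_inv]

theorem norm_kt_le {t : ℝ} (ht : 0 < t) [CompactSpace X] (s : ℂ) : ‖kt X t ht s‖ ≤ t⁻¹ := by
  rw [ContinuousMap.norm_le _ (inv_nonneg.2 ht.le)]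
  intro z
  show ‖(starRingEnd ℂ) ((z : ℂ) - s) / ((max (‖(z : ℂ) - s‖ ^ 2) (t ^ 2) : ℝ) : ℂ)‖ ≤ _
  have h0 : 0 < max (‖(z : ℂ) - s‖ ^ 2) (t ^ 2) := lt_max_of_lt_right (by positivity)
  rw [norm_div, Complex.norm_conj, Complex.norm_real, Real.norm_of_nonneg h0.le,
    div_le_iff₀ h0, ← div_eq_inv_mul, le_div_iff₀ ht]
  rcases le_total ‖(z : ℂ) - s‖ t with h | h
  · refine le_trans ?_ (le_max_right _ _)
    nlinarith [norm_nonneg ((z : ℂ) - s)]
  · refine le_trans ?_ (le_max_left _ _)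
    nlinarith [norm_nonneg ((z : ℂ) - s)]

theorem apx_far (hX : IsCompact X) {h : ℂ → ℂ} (hh : BM h) {t : ℝ} (ht : 0 < t)
    (hfar : ∀ s, h s ≠ 0 → t ≤ infDist s X) : Apx X (Po h) := by
  have : CompactSpace X := isCompact_iff_compactSpace.1 hX
  obtain ⟨M, hM0, hM⟩ := hh.bdd
  obtain ⟨R, hR0, hR⟩ := hh.supp
  have hdist : ∀ s, h s ≠ 0 → ∀ z ∈ X, t ≤ ‖z - s‖ := by
    intro s hs z hz
    have h1 := (hfar s hs).trans (infDist_le_dist_of_mem hz)
    rwa [dist_comm, dist_eq_norm] at h1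
  set F : ℂ → C(X, ℂ) := fun s => h s • kt X t ht s with hF
  have hmeas : AEStronglyMeasurable F volume :=
    hh.meas.smul (kt X t ht).continuous.aestronglyMeasurable
  have hbound : ∀ s, ‖F s‖ ≤ M * t⁻¹ := fun s => by
    rw [hF]
    exact (norm_smul_le _ _).trans (mul_le_mul (hM s) (norm_kt_le ht s) (norm_nonneg _) hM0)
  have hzero : ∀ s, s ∉ closedBall (0 : ℂ) R → F s = 0 := by
    intro s hs
    rw [mem_closedBall_zero_iff, not_le] at hs
    simp only [hF, hR s hs, zero_smul]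
  have hvol : volume (closedBall (0 : ℂ) R) ≠ ⊤ := (isCompact_closedBall _ _).measure_lt_top.ne
  have hIon : IntegrableOn F (closedBall (0 : ℂ) R) :=
    Measure.integrableOn_of_bounded (M := M * t⁻¹) hvol hmeas
      (Eventually.of_forall fun s => hbound s)
  have hI : Integrable F := by
    rw [← integrableOn_univ]
    refine (integrableOn_iff_integrable_of_support_subset ?_).1 hIon |>.integrableOn
    intro s hs
    by_contra hcon
    exact hs (hzero s hcon)
  set MM : Set C(X, ℂ) := {u | ∀ ε : ℝ, 0 < ε → ∃ p q : Polynomial ℂ,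
    (∀ z ∈ X, q.eval z ≠ 0) ∧ ∀ z : X, ‖u z - p.eval (z : ℂ) / q.eval (z : ℂ)‖ ≤ ε} with hMM
  have hext : ∀ u : C(X, ℂ), ∃ v : ℂ → ℂ, ∀ z : X, v z = u z := by
    intro u
    classical
    exact ⟨fun z => if hz : z ∈ X then u ⟨z, hz⟩ else 0, fun z => by simp⟩
  have hiff : ∀ (u : C(X, ℂ)) (v : ℂ → ℂ), (∀ z : X, v z = u z) → (u ∈ MM ↔ Apx X v) := by
    intro u v huv
    constructor
    · intro hu ε hε
      obtain ⟨p, q, hq, hp⟩ := hu ε hε
      exact ⟨p, q, hq, fun z hz => by rw [huv ⟨z, hz⟩]; exact hp ⟨z, hz⟩⟩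
    · intro hv ε hε
      obtain ⟨p, q, hq, hp⟩ := hv ε hε
      exact ⟨p, q, hq, fun z => by rw [← huv z]; exact hp z z.2⟩
  have hadd : ∀ u ∈ MM, ∀ v ∈ MM, u + v ∈ MM := by
    intro u hu v hv
    obtain ⟨u', hu'⟩ := hext u
    obtain ⟨v', hv'⟩ := hext v
    refine (hiff (u + v) (fun z => u' z + v' z) fun z => ?_).2
      (((hiff u u' hu').1 hu).add ((hiff v v' hv').1 hv))
    rw [hu', hv']
    rfl
  have hsmul : ∀ (c : ℝ), ∀ u ∈ MM, c • u ∈ MM := by
    intro c u hu
    obtain ⟨u', hu'⟩ := hext u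
    refine (hiff (c • u) (fun z => (c : ℂ) * u' z) fun z => ?_).2
      (((hiff u u' hu').1 hu).const_mul (c : ℂ))
    rw [hu']
    rfl
  have hconv : Convex ℝ MM := by
    intro u hu v hv a b _ _ _
    exact hadd _ (hsmul a u hu) _ (hsmul b v hv)
  have hclosed : IsClosed MM := by
    rw [← isSeqClosed_iff_isClosed]
    intro U u hU hlim ε hε
    rw [Metric.tendsto_atTop] at hlim
    obtain ⟨N, hN⟩ := hlim (ε / 2) (by linarith)
    obtain ⟨p, q, hq, hp⟩ := hU N (ε / 2) (by linarith)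
    refine ⟨p, q, hq, fun z => ?_⟩
    have h1 : u z - p.eval (z : ℂ) / q.eval (z : ℂ) = (u z - U N z) +
      (U N z - p.eval (z : ℂ) / q.eval (z : ℂ)) := by ring
    have h2 : ‖u z - U N z‖ ≤ ε / 2 := by
      have h3 := ContinuousMap.dist_apply_le_dist (f := u) (g := U N) z
      rw [dist_eq_norm] at h3
      rw [dist_comm] at h3
      exact h3.trans (hN N le_rfl).le
    rw [h1]
    refine (norm_add_le _ _).trans ?_
    linarith [hp z]
  have hFm : ∀ s, F s ∈ MM := by
    intro s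
    by_cases hs : h s = 0
    · have h0 : F s = 0 := by simp only [hF, hs, zero_smul]
      rw [h0]
      exact (hiff 0 (fun _ => 0) fun z => rfl).2 apx_zero
    · have hsX : s ∉ X := by
        intro hsX
        have := hdist s hs s hsX
        rw [sub_self, norm_zero] at this
        linarith
      refine (hiff (F s) (fun z => h s * (z - s)⁻¹) fun z => ?_).2 ((apx_ker hsX).const_mul (h s))
      show _ = h s * kt X t ht s z
      rw [kt_apply ht (hdist s hs z z.2)]
  have hvol0 : volume (closedBall (0 : ℂ) R) ≠ 0 :=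
    (measure_closedBall_pos volume (0 : ℂ) hR0).ne'
  have hav := hconv.set_average_mem hclosed hvol0 hvol
    (Eventually.of_forall fun s => hFm s) hIon
  have hint : ∫ s, F s ∈ MM := by
    have h1 : ∫ s, F s = ∫ s in closedBall (0 : ℂ) R, F s := by
      rw [← integral_indicator measurableSet_closedBall]
      congr 1
      funext s
      by_cases hs : s ∈ closedBall (0 : ℂ) R
      · rw [indicator_of_mem hs]
      · rw [indicator_of_notMem hs, hzero s hs]
    rw [h1, ← measure_smul_setAverage F hvol]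
    exact hsmul _ _ hav
  refine (hiff _ (Po h) fun z => ?_).1 hint
  have h1 := (ContinuousMap.evalCLM ℂ z).integral_comp_comm hI
  have h2 : (ContinuousMap.evalCLM ℂ z) (∫ s, F s) = (∫ s, F s) z := rfl
  rw [← h2, ← h1]
  unfold Po
  congr 1
  funext s
  show h s * ((z : ℂ) - s)⁻¹ = h s * kt X t ht s z
  by_cases hs : h s = 0
  · rw [hs, zero_mul, zero_mul]
  · rw [kt_apply ht (hdist s hs z z.2)]

/-- The Cauchy transform of a bounded function which vanishes on `X` is in `R(X)`. -/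
theorem apx_Po (hX : IsCompact X) (hne : X.Nonempty) {h : ℂ → ℂ} (hh : BM h)
    (h0 : ∀ s ∈ X, h s = 0) : Apx X (Po h) := by
  obtain ⟨M, hM0, hM⟩ := hh.bdd
  obtain ⟨R, hR0, hR⟩ := hh.supp
  refine Apx.lim fun ε hε => ?_
  -- the parameters
  have hpi := Real.pi_pos
  obtain ⟨ρ, hρ, hρ2⟩ : ∃ ρ : ℝ, 0 < ρ ∧ M * (2 * Real.pi * ρ) ≤ ε / 2 := by
    refine ⟨ε / (4 * Real.pi * (M + 1)), by positivity, ?_⟩
    have : M * (2 * Real.pi * (ε / (4 * Real.pi * (M + 1)))) = (M / (M + 1)) * (ε / 2) := by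
      field_simp
      ring
    rw [this]
    have h1 : M / (M + 1) ≤ 1 := by
      rw [div_le_one (by linarith)]
      linarith
    nlinarith
  obtain ⟨t, ht, hvol⟩ := vol_near hX (κ := ε * ρ / (2 * (M + 1))) (by positivity)
  set S : Set ℂ := cthickening t X \ X with hS
  have hSm : MeasurableSet S := isClosed_cthickening.measurableSet.diff hX.measurableSet
  have hSf : volume S ≠ ⊤ :=
    ((measure_mono sdiff_subset).trans_lt hX.cthickening.measure_lt_top).ne
  refine ⟨Po (Sᶜ.indicator h), ?_, fun z _ => ?_⟩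
  · refine apx_far hX ⟨hh.meas.indicator hSm.compl, ⟨M, hM0, fun s => ?_⟩,
      ⟨R, hR0, fun s hs => ?_⟩⟩ ht (fun s hs => ?_)
    · exact (norm_indicator_le_norm_self _ _).trans (hM s)
    · by_cases h1 : s ∈ Sᶜ
      · rw [indicator_of_mem h1, hR s hs]
      · rw [indicator_of_notMem h1]
    · by_contra hcon
      rw [not_le] at hcon
      have h1 : s ∈ Sᶜ := by
        by_contra h2
        exact hs (indicator_of_notMem h2 _)
      rw [indicator_of_mem h1] at hs
      by_cases h2 : s ∈ X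
      · exact hs (h0 s h2)
      · refine h1 ⟨?_, h2⟩
        rw [mem_cthickening_iff, ENNReal.le_ofReal_iff_toReal_le (infEDist_ne_top hne) ht.le]
        exact hcon.le
  · have h1 : Po h z - Po (Sᶜ.indicator h) z = Po (S.indicator h) z := by
      unfold Po
      have hb : BM (Sᶜ.indicator h) := ⟨hh.meas.indicator hSm.compl,
        ⟨M, hM0, fun s => (norm_indicator_le_norm_self _ _).trans (hM s)⟩,
        ⟨R, hR0, fun s hs => by
          by_cases h1 : s ∈ Sᶜ
          · rw [indicator_of_mem h1, hR s hs]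
          · rw [indicator_of_notMem h1]⟩⟩
      rw [← integral_sub (hh.integrable z) (hb.integrable z)]
      congr 1
      funext s
      by_cases hs : s ∈ S
      · rw [indicator_of_mem hs, indicator_of_notMem (by simpa using hs)]
        ring
      · rw [indicator_of_notMem hs, indicator_of_mem (show s ∈ Sᶜ from hs)]
        ring
    rw [h1]
    refine (Po_le hSm hSf (M := M) (fun s _ => (norm_indicator_le_norm_self _ _).trans (hM s))
      (fun s hs => indicator_of_notMem hs _) z).trans ?_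
    have h2 := ker_le hSf hρ z
    have h3 := (hvol t le_rfl).le
    calc M * ∫ s in S, ‖(z - s)⁻¹‖ ≤ M * (2 * Real.pi * ρ + volume.real S * ρ⁻¹) :=
          mul_le_mul_of_nonneg_left h2 hM0
      _ = M * (2 * Real.pi * ρ) + M * (volume.real S * ρ⁻¹) := by ring
      _ ≤ ε / 2 + M * ((ε * ρ / (2 * (M + 1))) * ρ⁻¹) := by
          refine add_le_add hρ2 (mul_le_mul_of_nonneg_left
            (mul_le_mul_of_nonneg_right h3 (inv_nonneg.2 hρ.le)) hM0)
      _ = ε / 2 + (M / (M + 1)) * (ε / 2) := by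
          field_simp
      _ ≤ ε := by
          have h1 : M / (M + 1) ≤ 1 := by
            rw [div_le_one (by linarith)]
            linarith
          nlinarith

end Pool.Agent.R546.RX
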