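import Pool.Agent.R546.RX.Ker

/-!
# Localisation and a grid partition of unity
-/

set_option autoImplicit false
set_option linter.unusedSectionVars false

namespace Pool.Agent.R546.RX

open Complex MeasureTheory Filter Topology Metric Set
open Pool.Agent.H761R2.SV (dbar continuous_dbar dbar_mul dbar_comp_smul pompeiu_compact)

/-- `C¹` with compact support -/
structure CC (ψ : ℂ → ℂ) : Prop where
  diff : ContDiff ℝ 1 ψ
  supp : HasCompactSupport ψ

theorem dbar_zero {ψ : ℂ → ℂ} {s : ℂ} (h : s ∉ tsupport ψ) : dbar ψ s = 0 := by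
  unfold dbar
  rw [fderiv_of_notMem_tsupport (𝕜 := ℝ) h]
  simp

theorem CC.dbar_supp {ψ : ℂ → ℂ} (h : CC ψ) : HasCompactSupport (dbar ψ) :=
  HasCompactSupport.intro h.supp.isCompact fun _ hs => dbar_zero hs

theorem CC.bound {ψ : ℂ → ℂ} (h : CC ψ) : ∃ M : ℝ, 0 ≤ M ∧ ∀ s, ‖ψ s‖ ≤ M := by
  obtain ⟨M, hM⟩ := h.supp.exists_bound_of_continuous h.diff.continuous
  exact ⟨M, (norm_nonneg _).trans (hM 0), hM⟩

theorem CC.dbar_bound {ψ : ℂ → ℂ} (h : CC ψ) : ∃ M : ℝ, 0 ≤ M ∧ ∀ s, ‖dbar ψ s‖ ≤ M := by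
  obtain ⟨M, hM⟩ := h.dbar_supp.exists_bound_of_continuous (continuous_dbar h.diff)
  exact ⟨M, (norm_nonneg _).trans (hM 0), hM⟩

theorem CC.supp_bound {ψ : ℂ → ℂ} (h : CC ψ) : ∃ R : ℝ, 0 < R ∧ tsupport ψ ⊆ closedBall 0 R := by
  obtain ⟨R, hR⟩ := h.supp.isCompact.isBounded.subset_closedBall (0 : ℂ)
  exact ⟨max R 1, lt_max_of_lt_right one_pos, hR.trans (closedBall_subset_closedBall
    (le_max_left _ _))⟩

theorem CC.mul {ψ χ : ℂ → ℂ} (h : CC ψ) (h' : ContDiff ℝ 1 χ) : CC (fun z => ψ z * χ z) :=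
  ⟨h.diff.mul h', h.supp.mul_right⟩

theorem dbar_sum {ι : Type*} (J : Finset ι) {ψ : ι → ℂ → ℂ} (h : ∀ i ∈ J, ContDiff ℝ 1 (ψ i))
    (s : ℂ) : dbar (fun z => ∑ i ∈ J, ψ i z) s = ∑ i ∈ J, dbar (ψ i) s := by
  unfold dbar
  rw [fderiv_fun_sum fun i hi => (h i hi).differentiable (by simp) s]
  simp only [FunLike.coe_sum, Finset.sum_apply]
  rw [Finset.mul_sum, ← Finset.sum_add_distrib, Finset.sum_div]

variable {X : Set ℂ}

theorem bm_ind (hX : IsCompact X) {f ψ : ℂ → ℂ} (hf : ContinuousOn f X) (hψ : CC ψ) :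
    BM (fun s => X.indicator f s * dbar ψ s) := by
  obtain ⟨M, hM⟩ := hX.exists_bound_of_continuousOn hf
  obtain ⟨M', hM'0, hM'⟩ := hψ.dbar_bound
  obtain ⟨R, hR0, hR⟩ := hψ.supp_bound
  refine ⟨?_, ⟨|M| * M', by positivity, fun s => ?_⟩, ⟨R, hR0, fun s hs => ?_⟩⟩
  · exact ((aestronglyMeasurable_indicator_iff hX.measurableSet).2
      (hf.aestronglyMeasurable hX.measurableSet)).mul
      (continuous_dbar hψ.diff).aestronglyMeasurable
  · rw [norm_mul]
    refine mul_le_mul ?_ (hM' s) (norm_nonneg _) (abs_nonneg _)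
    by_cases h : s ∈ X
    · rw [indicator_of_mem h]
      exact (hM s h).trans (le_abs_self _)
    · rw [indicator_of_notMem h, norm_zero]
      exact abs_nonneg _
  · rw [dbar_zero, mul_zero]
    intro h
    have := hR h
    rw [mem_closedBall_zero_iff] at this
    linarith

/-- localisation of `f` -/
noncomputable def V (X : Set ℂ) (ψ f : ℂ → ℂ) (z : ℂ) : ℂ :=
  ψ z * f z - (Real.pi : ℂ)⁻¹ * Po (fun s => X.indicator f s * dbar ψ s) z

theorem V_sum (hX : IsCompact X) {f : ℂ → ℂ} (hf : ContinuousOn f X) {ι : Type*} (J : Finset ι)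
    {ψ : ι → ℂ → ℂ} (h : ∀ i ∈ J, CC (ψ i)) (z : ℂ) :
    V X (fun z => ∑ i ∈ J, ψ i z) f z = ∑ i ∈ J, V X (ψ i) f z := by
  unfold V
  rw [Finset.sum_sub_distrib, Finset.sum_mul, ← Finset.mul_sum]
  congr 2
  unfold Po
  rw [← integral_finsetSum J fun i hi => (bm_ind hX hf (h i hi)).integrable z]
  congr 1
  funext s
  show X.indicator f s * dbar (fun z => ∑ i ∈ J, ψ i z) s * (z - s)⁻¹ = _
  rw [dbar_sum J (fun i hi => (h i hi).diff) s, Finset.mul_sum, Finset.sum_mul]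

theorem V_sub (hX : IsCompact X) {f g ψ : ℂ → ℂ} (hf : ContinuousOn f X) (hg : ContinuousOn g X)
    (hψ : CC ψ) (z : ℂ) : V X ψ f z = V X ψ g z + V X ψ (fun s => f s - g s) z := by
  unfold V
  have h1 : Po (fun s => X.indicator f s * dbar ψ s) z =
      Po (fun s => X.indicator g s * dbar ψ s) z +
        Po (fun s => X.indicator (fun s => f s - g s) s * dbar ψ s) z := by
    have hfg : ContinuousOn (fun s => f s - g s) X := hf.sub hg
    unfold Po
    refine Eq.trans ?_ (integral_add ((bm_ind hX hg hψ).integrable z)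
      ((bm_ind hX hfg hψ).integrable z))
    congr 1
    funext s
    by_cases h : s ∈ X
    · simp only [indicator_of_mem h]
      ring
    · simp only [indicator_of_notMem h]
      ring
  rw [h1]
  ring

theorem V_affine (hX : IsCompact X) (hne : X.Nonempty) {ψ : ℂ → ℂ} (hψ : CC ψ) (a b : ℂ) :
    Apx X (V X ψ (fun s => a + b * s)) := by
  set l : ℂ → ℂ := fun s => a + b * s with hl
  have hlc : Continuous l := by fun_prop
  have hld : ContDiff ℝ 1 l := by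
    have : ContDiff ℂ 1 l := by fun_prop
    exact this.restrict_scalars ℝ
  have hG : CC (fun s => ψ s * l s) := hψ.mul hld
  have hdl : ∀ s, dbar l s = 0 := by
    intro s
    have h1 : HasDerivAt l b s := by
      have := ((hasDerivAt_id s).const_mul b).const_add a
      rw [mul_one] at this
      exact this
    unfold dbar
    have h2 : fderiv ℝ l s = (ContinuousLinearMap.toSpanSingleton ℂ b).restrictScalars ℝ :=
      (h1.hasFDerivAt.restrictScalars ℝ).fderiv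
    rw [h2]
    simp only [ContinuousLinearMap.coe_restrictScalars', ContinuousLinearMap.toSpanSingleton_apply,
      smul_eq_mul]
    rw [← mul_assoc, Complex.I_mul_I]
    ring
  have hdG : ∀ s, dbar (fun s => ψ s * l s) s = l s * dbar ψ s := by
    intro s
    rw [dbar_mul hψ.diff hld, hdl]
    ring
  have h1 := bm_ind hX hlc.continuousOn hψ
  obtain ⟨M, hM0, hM⟩ := hG.dbar_bound
  obtain ⟨R, hR0, hR⟩ := hG.supp_bound
  have h2 : BM (fun s => Xᶜ.indicator (dbar (fun s => ψ s * l s)) s) := by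
    refine ⟨(continuous_dbar hG.diff).aestronglyMeasurable.indicator hX.measurableSet.compl,
      ⟨M, hM0, fun s => (norm_indicator_le_norm_self _ _).trans (hM s)⟩,
      ⟨R, hR0, fun s hs => ?_⟩⟩
    have h3 : dbar (fun s => ψ s * l s) s = 0 := by
      apply dbar_zero
      intro h
      have := hR h
      rw [mem_closedBall_zero_iff] at this
      linarith
    by_cases h : s ∈ Xᶜ
    · rw [indicator_of_mem h, h3]
    · rw [indicator_of_notMem h]
  have h3 : Apx X (Po (fun s => Xᶜ.indicator (dbar (fun s => ψ s * l s)) s)) :=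
    apx_Po hX hne h2 fun s hs => indicator_of_notMem (by simpa using hs) _
  refine (h3.const_mul (Real.pi : ℂ)⁻¹).congr fun z _ => ?_
  have h4 := pompeiu_compact hG.diff hG.supp z
  have hpi : (Real.pi : ℂ) ≠ 0 := by exact_mod_cast Real.pi_ne_zero
  have h5 : Po (fun s => X.indicator l s * dbar ψ s) z +
      Po (fun s => Xᶜ.indicator (dbar (fun s => ψ s * l s)) s) z = Real.pi * (ψ z * l z) := by
    rw [← h4]
    unfold Po
    rw [← integral_add (h1.integrable z) (h2.integrable z)]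
    congr 1
    funext s
    rw [← add_mul]
    congr 1
    by_cases h : s ∈ X
    · rw [indicator_of_mem h, indicator_of_notMem (by simpa using h), hdG, add_zero]
    · rw [indicator_of_notMem h, indicator_of_mem (show s ∈ Xᶜ from h), zero_mul, zero_add]
  unfold V
  have h6 : ψ z * l z = (Real.pi : ℂ)⁻¹ * (Real.pi * (ψ z * l z)) := by
    rw [← mul_assoc, inv_mul_cancel₀ hpi, one_mul]
  show ψ z * l z - (Real.pi : ℂ)⁻¹ * Po (fun s => X.indicator l s * dbar ψ s) z = _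
  rw [h6, ← h5]
  ring

theorem V_of_zero {f ψ : ℂ → ℂ} (h1 : ∀ z ∈ X, ψ z = 0) (h2 : ∀ z ∈ X, dbar ψ z = 0) {z : ℂ}
    (hz : z ∈ X) : V X ψ f z = 0 := by
  unfold V
  have : (fun s => X.indicator f s * dbar ψ s) = fun _ => 0 := by
    funext s
    by_cases h : s ∈ X
    · rw [h2 s h, mul_zero]
    · rw [indicator_of_notMem h, zero_mul]
  rw [h1 z hz, this]
  unfold Po
  simp

theorem V_disj {f ψ : ℂ → ℂ} (h : Disjoint (tsupport ψ) X) : Apx X (V X ψ f) := by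
  refine apx_zero.congr fun z hz => V_of_zero (fun z hz => ?_) (fun z hz => ?_) hz
  · exact image_eq_zero_of_notMem_tsupport fun h' => disjoint_left.1 h h' hz
  · exact dbar_zero fun h' => disjoint_left.1 h h' hz

theorem V_le {g ψ : ℂ → ℂ} {S : Set ℂ} (hS : IsCompact S) {M : ℝ} (hM : 0 ≤ M)
    (h1 : ∀ s ∈ X ∩ S, ‖g s‖ * ‖dbar ψ s‖ ≤ M) (h2 : ∀ s, s ∉ S → dbar ψ s = 0) (z : ℂ) :
    ‖V X ψ g z‖ ≤ ‖ψ z‖ * ‖g z‖ + Real.pi⁻¹ * (M * ∫ s in S, ‖(z - s)⁻¹‖) := by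
  unfold V
  refine (norm_sub_le _ _).trans ?_
  rw [norm_mul, norm_mul, norm_inv, Complex.norm_real, Real.norm_of_nonneg Real.pi_pos.le]
  have hpi : 0 ≤ Real.pi⁻¹ := inv_nonneg.2 Real.pi_pos.le
  refine add_le_add le_rfl (mul_le_mul_of_nonneg_left ?_ hpi)
  refine Po_le hS.measurableSet hS.measure_lt_top.ne (fun s hs => ?_) (fun s hs => ?_) z
  · rw [norm_mul]
    by_cases h : s ∈ X
    · rw [indicator_of_mem h]
      exact h1 s ⟨h, hs⟩
    · rw [indicator_of_notMem h, norm_zero, zero_mul]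
      exact hM
  · rw [h2 s hs, mul_zero]

/-! ### The grid -/

/-- a bump -/
noncomputable def th (x : ℝ) : ℝ := Real.smoothTransition (x + 1) - Real.smoothTransition x

theorem th_contDiff : ContDiff ℝ 1 th := by
  unfold th
  have h : ContDiff ℝ 1 Real.smoothTransition := Real.smoothTransition.contDiff (n := 1)
  exact (h.comp (contDiff_id.add contDiff_const)).sub h

theorem th_zero {x : ℝ} (h : 1 ≤ |x|) : th x = 0 := by
  unfold th
  rcases le_abs.1 h with h | h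
  · rw [Real.smoothTransition.one_of_one_le h, Real.smoothTransition.one_of_one_le (by linarith),
      sub_self]
  · rw [Real.smoothTransition.zero_of_nonpos (by linarith),
      Real.smoothTransition.zero_of_nonpos (by linarith), sub_self]

theorem th_abs (x : ℝ) : |th x| ≤ 1 := by
  unfold th
  rw [abs_le]
  have h1 := Real.smoothTransition.nonneg (x + 1)
  have h2 := Real.smoothTransition.le_one (x + 1)
  have h3 := Real.smoothTransition.nonneg x
  have h4 := Real.smoothTransition.le_one x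
  constructor <;> linarith

theorem th_sum {x : ℝ} {N : ℕ} (h : |x| ≤ N) :
    ∑ i ∈ Finset.range (2 * N + 1), th (x - ((i : ℝ) - N)) = 1 := by
  have h1 : ∀ i : ℕ, th (x - ((i : ℝ) - N)) = Real.smoothTransition (x + N + 1 - (i : ℕ)) -
      Real.smoothTransition (x + N + 1 - ((i + 1 : ℕ) : ℝ)) := by
    intro i
    unfold th
    congr 2 <;> (push_cast; ring)
  rw [Finset.sum_congr rfl fun i _ => h1 i,
    Finset.sum_range_sub' (fun i => Real.smoothTransition (x + N + 1 - (i : ℕ))) (2 * N + 1)]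
  obtain ⟨h2, h3⟩ := abs_le.1 h
  rw [Real.smoothTransition.one_of_one_le (by push_cast; linarith),
    Real.smoothTransition.zero_of_nonpos (by push_cast; linarith), sub_zero]

/-- the bump on the plane -/
noncomputable def Th (w : ℂ) : ℂ := ((th w.re * th w.im : ℝ) : ℂ)

theorem Th_contDiff : ContDiff ℝ 1 Th := by
  have h1 : ContDiff ℝ 1 (fun w : ℂ => th w.re * th w.im) :=
    (th_contDiff.comp Complex.reCLM.contDiff).mul (th_contDiff.comp Complex.imCLM.contDiff)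
  exact Complex.ofRealCLM.contDiff.comp h1

theorem Th_zero {w : ℂ} (h : 1 ≤ |w.re| ∨ 1 ≤ |w.im|) : Th w = 0 := by
  unfold Th
  rcases h with h | h
  · rw [th_zero h]; simp
  · rw [th_zero h]; simp

theorem Th_CC : CC Th := by
  refine ⟨Th_contDiff, HasCompactSupport.intro (isCompact_closedBall (0 : ℂ) 2) fun w hw => ?_⟩
  rw [mem_closedBall_zero_iff, not_le] at hw
  refine Th_zero ?_
  by_contra hcon
  rw [not_or, not_le, not_le] at hcon
  have := Complex.norm_le_abs_re_add_abs_im w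
  linarith [hcon.1, hcon.2]

/-- the centres of the grid -/
noncomputable def ctr (N : ℕ) (p : ℕ × ℕ) : ℂ := ((p.1 : ℝ) - N : ℝ) + ((p.2 : ℝ) - N : ℝ) * I

/-- the functions of the partition of unity -/
noncomputable def pp (δ : ℝ) (N : ℕ) (p : ℕ × ℕ) (z : ℂ) : ℂ := Th (δ⁻¹ • z - ctr N p)

/-- their supports -/
def QQ (δ : ℝ) (N : ℕ) (p : ℕ × ℕ) : Set ℂ :=
  {z | |δ⁻¹ * z.re - ((p.1 : ℝ) - N)| ≤ 1 ∧ |δ⁻¹ * z.im - ((p.2 : ℝ) - N)| ≤ 1}

theorem pp_contDiff (δ : ℝ) (N : ℕ) (p : ℕ × ℕ) : ContDiff ℝ 1 (pp δ N p) := by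
  unfold pp
  exact Th_contDiff.comp ((contDiff_const_smul _).sub contDiff_const)

theorem ctr_re (N : ℕ) (p : ℕ × ℕ) : (ctr N p).re = (p.1 : ℝ) - N := by
  simp [ctr]

theorem ctr_im (N : ℕ) (p : ℕ × ℕ) : (ctr N p).im = (p.2 : ℝ) - N := by
  simp [ctr]

theorem arg_re (δ : ℝ) (N : ℕ) (p : ℕ × ℕ) (z : ℂ) :
    (δ⁻¹ • z - ctr N p).re = δ⁻¹ * z.re - ((p.1 : ℝ) - N) := by
  rw [Complex.sub_re, ctr_re, Complex.real_smul, Complex.re_ofReal_mul]

theorem arg_im (δ : ℝ) (N : ℕ) (p : ℕ × ℕ) (z : ℂ) :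
    (δ⁻¹ • z - ctr N p).im = δ⁻¹ * z.im - ((p.2 : ℝ) - N) := by
  rw [Complex.sub_im, ctr_im, Complex.real_smul, Complex.im_ofReal_mul]

theorem pp_norm (δ : ℝ) (N : ℕ) (p : ℕ × ℕ) (z : ℂ) : ‖pp δ N p z‖ ≤ 1 := by
  unfold pp Th
  rw [Complex.norm_real, Real.norm_eq_abs, abs_mul]
  calc |th _| * |th _| ≤ 1 * 1 := mul_le_mul (th_abs _) (th_abs _) (abs_nonneg _) zero_le_one
    _ = 1 := one_mul 1

theorem QQ_closed (δ : ℝ) (N : ℕ) (p : ℕ × ℕ) : IsClosed (QQ δ N p) := by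
  have h1 : IsClosed {z : ℂ | |δ⁻¹ * z.re - ((p.1 : ℝ) - N)| ≤ 1} :=
    isClosed_le (by fun_prop) continuous_const
  have h2 : IsClosed {z : ℂ | |δ⁻¹ * z.im - ((p.2 : ℝ) - N)| ≤ 1} :=
    isClosed_le (by fun_prop) continuous_const
  have h3 : QQ δ N p = {z : ℂ | |δ⁻¹ * z.re - ((p.1 : ℝ) - N)| ≤ 1} ∩
      {z : ℂ | |δ⁻¹ * z.im - ((p.2 : ℝ) - N)| ≤ 1} := by
    ext z
    rfl
  rw [h3]
  exact h1.inter h2

theorem pp_tsupport (δ : ℝ) (N : ℕ) (p : ℕ × ℕ) : tsupport (pp δ N p) ⊆ QQ δ N p := by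
  refine closure_minimal (fun z hz => ?_) (QQ_closed δ N p)
  by_contra hcon
  refine hz ?_
  unfold pp
  refine Th_zero ?_
  rw [arg_re, arg_im]
  unfold QQ at hcon
  rw [mem_ofPred_eq, not_and_or, not_le, not_le] at hcon
  exact hcon.imp le_of_lt le_of_lt

theorem QQ_dist {δ : ℝ} (hδ : 0 < δ) {N : ℕ} {p : ℕ × ℕ} {z w : ℂ} (hz : z ∈ QQ δ N p)
    (hw : w ∈ QQ δ N p) : ‖w - z‖ < 5 * δ := by
  obtain ⟨h1, h2⟩ := hz
  obtain ⟨h3, h4⟩ := hw
  have key : ∀ a b c : ℝ, |δ⁻¹ * a - c| ≤ 1 → |δ⁻¹ * b - c| ≤ 1 → |b - a| ≤ 2 * δ := by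
    intro a b c ha hb
    have h5 : b - a = δ * ((δ⁻¹ * b - c) - (δ⁻¹ * a - c)) := by
      field_simp
      ring
    rw [h5, abs_mul, abs_of_pos hδ]
    have h6 := abs_sub (δ⁻¹ * b - c) (δ⁻¹ * a - c)
    nlinarith
  have h5 := key _ _ _ h1 h3
  have h6 := key _ _ _ h2 h4
  refine (Complex.norm_le_abs_re_add_abs_im _).trans_lt ?_
  rw [Complex.sub_re, Complex.sub_im]
  linarith

theorem pp_dbar : ∃ C : ℝ, 0 ≤ C ∧ ∀ (δ : ℝ), 0 < δ → ∀ (N : ℕ) (p : ℕ × ℕ) (z : ℂ),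
    ‖dbar (pp δ N p) z‖ ≤ C * δ⁻¹ := by
  obtain ⟨C, hC0, hC⟩ := Th_CC.dbar_bound
  refine ⟨C, hC0, fun δ hδ N p z => ?_⟩
  have h1 : ContDiff ℝ 1 (fun w => Th (w - ctr N p)) :=
    Th_contDiff.comp (contDiff_id.sub contDiff_const)
  have h2 := dbar_comp_smul h1 δ⁻¹ z
  have h3 : dbar (fun w => Th (w - ctr N p)) (δ⁻¹ • z) = dbar Th (δ⁻¹ • z - ctr N p) := by
    unfold dbar
    rw [fderiv_comp_sub (𝕜 := ℝ) (f := Th) (ctr N p)]
  have h4 : dbar (pp δ N p) z = (δ⁻¹ : ℝ) * dbar Th (δ⁻¹ • z - ctr N p) := by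
    rw [← h3, ← h2]
    rfl
  rw [h4, norm_mul, Complex.norm_real, Real.norm_of_nonneg (inv_nonneg.2 hδ.le), mul_comm]
  exact mul_le_mul_of_nonneg_right (hC _) (inv_nonneg.2 hδ.le)

/-- index set of the partition -/
def JJ (N : ℕ) : Finset (ℕ × ℕ) := Finset.range (2 * N + 1) ×ˢ Finset.range (2 * N + 1)

theorem pp_sum {δ : ℝ} {N : ℕ} {z : ℂ} (h1 : |δ⁻¹ * z.re| ≤ N) (h2 : |δ⁻¹ * z.im| ≤ N) :
    ∑ p ∈ JJ N, pp δ N p z = 1 := by
  have h3 : ∀ p : ℕ × ℕ, pp δ N p z = ((th (δ⁻¹ * z.re - ((p.1 : ℝ) - N)) *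
      th (δ⁻¹ * z.im - ((p.2 : ℝ) - N)) : ℝ) : ℂ) := by
    intro p
    unfold pp Th
    rw [arg_re, arg_im]
  rw [Finset.sum_congr rfl fun p _ => h3 p, ← Complex.ofReal_sum]
  unfold JJ
  rw [Finset.sum_product]
  have h4 := Finset.sum_mul_sum (Finset.range (2 * N + 1)) (Finset.range (2 * N + 1))
    (fun i => th (δ⁻¹ * z.re - ((i : ℝ) - N))) (fun i => th (δ⁻¹ * z.im - ((i : ℝ) - N)))
  rw [th_sum h1, th_sum h2, one_mul] at h4
  rw [← h4]
  norm_num

theorem card_le_three (x : ℝ) (N M : ℕ) :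
    ((Finset.range M).filter fun i : ℕ => |x - ((i : ℝ) - N)| ≤ 1).card ≤ 3 := by
  classical
  set s := (Finset.range M).filter fun i : ℕ => |x - ((i : ℝ) - N)| ≤ 1 with hs
  rcases s.eq_empty_or_nonempty with h | h
  · rw [h]; simp
  · have hsub : s ⊆ Finset.Icc (s.min' h) (s.min' h + 2) := by
      intro i hi
      rw [Finset.mem_Icc]
      refine ⟨s.min'_le i hi, ?_⟩
      have h1 := (Finset.mem_filter.1 (s.min'_mem h)).2
      have h2 := (Finset.mem_filter.1 hi).2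
      rw [abs_le] at h1 h2
      have h3 : (i : ℝ) ≤ (s.min' h : ℝ) + 2 := by linarith [h1.1, h1.2, h2.1, h2.2]
      exact_mod_cast h3
    refine (Finset.card_le_card hsub).trans ?_
    rw [Nat.card_Icc]
    omega

open Classical in
theorem overlap (δ : ℝ) (N : ℕ) (z : ℂ) : ((JJ N).filter fun p => z ∈ QQ δ N p).card ≤ 9 := by
  have h1 : ((JJ N).filter fun p => z ∈ QQ δ N p) ⊆
      ((Finset.range (2 * N + 1)).filter fun i : ℕ => |δ⁻¹ * z.re - ((i : ℝ) - N)| ≤ 1) ×ˢ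
      ((Finset.range (2 * N + 1)).filter fun i : ℕ => |δ⁻¹ * z.im - ((i : ℝ) - N)| ≤ 1) := by
    intro p hp
    rw [Finset.mem_filter] at hp
    obtain ⟨hp1, hp2⟩ := hp
    unfold JJ at hp1
    rw [Finset.mem_product] at hp1
    rw [Finset.mem_product, Finset.mem_filter, Finset.mem_filter]
    exact ⟨⟨hp1.1, hp2.1⟩, ⟨hp1.2, hp2.2⟩⟩
  refine (Finset.card_le_card h1).trans ?_
  rw [Finset.card_product]
  exact Nat.mul_le_mul (card_le_three _ _ _) (card_le_three _ _ _)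

/-- decomposition of a localisation along the grid -/
theorem V_grid (hX : IsCompact X) {f ψ : ℂ → ℂ} (hf : ContinuousOn f X) (hψ : CC ψ) {δ R : ℝ}
    (hδ : 0 < δ) (hR : tsupport ψ ⊆ closedBall 0 R) {N : ℕ} (hN : R / δ ≤ N) (z : ℂ) :
    V X ψ f z = ∑ p ∈ JJ N, V X (fun z => ψ z * pp δ N p z) f z := by
  rw [← V_sum hX hf (JJ N) (fun p _ => hψ.mul (pp_contDiff δ N p))]
  congr 1
  funext w
  rw [← Finset.mul_sum]
  by_cases hw : w ∈ tsupport ψ
  · have h1 := hR hw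
    rw [mem_closedBall_zero_iff] at h1
    have h2 : ∀ a : ℝ, |a| ≤ ‖w‖ → |δ⁻¹ * a| ≤ N := by
      intro a ha
      rw [abs_mul, abs_of_pos (inv_pos.2 hδ), inv_mul_eq_div]
      exact (div_le_div_of_nonneg_right (ha.trans h1) hδ.le).trans hN
    rw [pp_sum (h2 _ (Complex.abs_re_le_norm w)) (h2 _ (Complex.abs_im_le_norm w)), mul_one]
  · rw [image_eq_zero_of_notMem_tsupport hw, zero_mul]

end Pool.Agent.R546.RX
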