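import Pool.Agent.R546.RX.Loc

/-!
# Functions with a continuous derivative on a compact plane set are in `R(X)`
-/

set_option autoImplicit false
set_option linter.unusedSectionVars false

namespace Pool.Agent.R546.RX

open Complex MeasureTheory Filter Topology Metric Set
open Pool.Agent.H761R2.SV (dbar continuous_dbar dbar_mul dbar_comp_smul pompeiu_compact)

variable {X : Set ℂ}

/-- all localisations of `f` near `x` are in `R(X)` -/
def Gd (X : Set ℂ) (f : ℂ → ℂ) (x : ℂ) : Prop :=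
  ∃ ρ : ℝ, 0 < ρ ∧ ∀ ψ, CC ψ → tsupport ψ ⊆ ball x ρ → Apx X (V X ψ f)

theorem isOpen_Gd (f : ℂ → ℂ) : IsOpen {x | Gd X f x} := by
  rw [Metric.isOpen_iff]
  rintro x ⟨ρ, hρ, h⟩
  refine ⟨ρ, hρ, fun y hy => ⟨ρ - dist y x, sub_pos.2 hy, fun ψ hψ hs => h ψ hψ (hs.trans ?_)⟩⟩
  exact ball_subset_ball' (by linarith)

theorem gd_off (hX : IsCompact X) (f : ℂ → ℂ) {x : ℂ} (hx : x ∉ X) : Gd X f x := by
  obtain ⟨ρ, hρ, h⟩ := Metric.isOpen_iff.1 hX.isClosed.isOpen_compl x hx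
  refine ⟨ρ, hρ, fun ψ _ hs => V_disj ?_⟩
  rw [Set.disjoint_left]
  intro z hz hzX
  exact h (hs hz) hzX

theorem apx_of_gd (hX : IsCompact X) {f ψ : ℂ → ℂ} (hf : ContinuousOn f X) (hψ : CC ψ)
    (h : ∀ x ∈ tsupport ψ, Gd X f x) : Apx X (V X ψ f) := by
  choose ρ hρ hgood using fun x : {x // Gd X f x} => x.2
  obtain ⟨δ₀, hδ₀, hleb⟩ := lebesgue_number_lemma_of_metric (s := tsupport ψ)
    (c := fun x : {x // Gd X f x} => ball (x : ℂ) (ρ x)) hψ.supp.isCompact
    (fun x => isOpen_ball) (fun x hx => mem_iUnion.2 ⟨⟨x, h x hx⟩, mem_ball_self (hρ _)⟩)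
  obtain ⟨R, hR0, hR⟩ := hψ.supp_bound
  have hδ : 0 < δ₀ / 5 := by linarith
  obtain ⟨N, hN⟩ := exists_nat_ge (R / (δ₀ / 5))
  have hsum : Apx X (fun z => ∑ p ∈ JJ N, V X (fun z => ψ z * pp (δ₀ / 5) N p z) f z) := by
    refine Apx.sum _ fun p _ => ?_
    have hs1 : tsupport (fun z => ψ z * pp (δ₀ / 5) N p z) ⊆ tsupport ψ :=
      tsupport_mul_subset_left
    have hs2 : tsupport (fun z => ψ z * pp (δ₀ / 5) N p z) ⊆ QQ (δ₀ / 5) N p :=
      (tsupport_mul_subset_right (f := ψ) (g := pp (δ₀ / 5) N p)).trans (pp_tsupport _ _ _)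
    by_cases hne : (tsupport ψ ∩ QQ (δ₀ / 5) N p).Nonempty
    · obtain ⟨x, hx1, hx2⟩ := hne
      obtain ⟨y, hy⟩ := hleb x hx1
      refine hgood y _ (hψ.mul (pp_contDiff _ _ _)) ((fun z hz => hy ?_))
      rw [mem_ball, dist_eq_norm]
      have := QQ_dist hδ hx2 (hs2 hz)
      linarith
    · refine V_disj ?_
      rw [Set.disjoint_left]
      intro z hz _
      exact hne ⟨z, hs1 hz, hs2 hz⟩
  exact hsum.congr fun z _ => V_grid hX hf hψ hδ hR hN z

theorem apx_of_all (hX : IsCompact X) {f : ℂ → ℂ} (hf : ContinuousOn f X)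
    (h : ∀ x, Gd X f x) : Apx X f := by
  obtain ⟨R, hR⟩ := hX.isBounded.subset_ball_lt 0 (0 : ℂ)
  let b : ContDiffBump (0 : ℂ) := ⟨R, R + 1, hR.1, by linarith⟩
  set ψ : ℂ → ℂ := fun z => ((b z : ℝ) : ℂ) with hψ
  have hc : CC ψ := by
    refine ⟨?_, ?_⟩
    · have : ContDiff ℝ 1 (fun w : ℂ => b w) := b.contDiff
      exact Complex.ofRealCLM.contDiff.comp this
    · have hb := b.hasCompactSupport
      exact hb.comp_left (g := fun x : ℝ => (x : ℂ)) (by simp)
  have h1 : ∀ z ∈ ball (0 : ℂ) R, ψ z = 1 := by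
    intro z hz
    have : b z = 1 := b.one_of_mem_closedBall (ball_subset_closedBall hz)
    simp [hψ, this]
  have h2 : ∀ z ∈ X, dbar ψ z = 0 := by
    intro z hz
    have h3 : ψ =ᶠ[𝓝 z] fun _ => 1 := by
      filter_upwards [isOpen_ball.mem_nhds (hR.2 hz)] with w hw
      exact h1 w hw
    unfold dbar
    rw [h3.fderiv_eq]
    simp
  refine (apx_of_gd hX hf hc fun x _ => h x).congr fun z hz => ?_
  unfold V
  have h4 : (fun s => X.indicator f s * dbar ψ s) = fun _ => 0 := by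
    funext s
    by_cases hs : s ∈ X
    · rw [h2 s hs, mul_zero]
    · rw [indicator_of_notMem hs, zero_mul]
  rw [h1 z (hR.2 hz), h4]
  unfold Po
  simp

/-! ### The set of points where `f` is not yet close to its derivative -/

/-- points `z` with a bad increment at distance `< t` -/
def UU (X : Set ℂ) (f g : ℂ → ℂ) (ε t : ℝ) : Set ℂ :=
  {z | z ∈ X ∧ ∃ w ∈ X, ‖w - z‖ < t ∧ ε * ‖w - z‖ < ‖f w - f z - g z * (w - z)‖}

theorem UU_measurable (hX : IsCompact X) {f g : ℂ → ℂ} (hf : ContinuousOn f X)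
    (hg : ContinuousOn g X) (ε t : ℝ) : MeasurableSet (UU X f g ε t) := by
  have h1 : ∀ w : ℂ, ∃ u : Set ℂ, IsOpen u ∧
      {z | ‖w - z‖ < t ∧ ε * ‖w - z‖ < ‖f w - f z - g z * (w - z)‖} ∩ X = u ∩ X := by
    intro w
    have ha : ContinuousOn (fun z => ‖f w - f z - g z * (w - z)‖ - ε * ‖w - z‖) X := by
      fun_prop
    have hb : ContinuousOn (fun z => ‖w - z‖) X := by fun_prop
    obtain ⟨u1, hu1, hu1'⟩ := (_root_.continuousOn_iff'.1 ha) (Ioi 0) isOpen_Ioi
    obtain ⟨u2, hu2, hu2'⟩ := (_root_.continuousOn_iff'.1 hb) (Iio t) isOpen_Iio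
    refine ⟨u1 ∩ u2, hu1.inter hu2, ?_⟩
    ext z
    have e1 : z ∈ (fun z => ‖f w - f z - g z * (w - z)‖ - ε * ‖w - z‖) ⁻¹' Ioi 0 ∩ X ↔
        z ∈ u1 ∩ X := by rw [hu1']
    have e2 : z ∈ (fun z => ‖w - z‖) ⁻¹' Iio t ∩ X ↔ z ∈ u2 ∩ X := by rw [hu2']
    simp only [mem_inter_iff, mem_preimage, mem_Ioi, mem_Iio, mem_ofPred_eq, sub_pos] at e1 e2 ⊢
    tauto
  choose u hu hu' using h1
  have h2 : UU X f g ε t = (⋃ w ∈ X, u w) ∩ X := by
    ext z
    constructor
    · rintro ⟨hz, w, hw, h3, h4⟩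
      have : z ∈ {z | ‖w - z‖ < t ∧ ε * ‖w - z‖ < ‖f w - f z - g z * (w - z)‖} ∩ X :=
        ⟨⟨h3, h4⟩, hz⟩
      rw [hu'] at this
      exact ⟨mem_biUnion hw this.1, hz⟩
    · rintro ⟨h3, hz⟩
      obtain ⟨w, hw, h4⟩ := mem_iUnion₂.1 h3
      have : z ∈ u w ∩ X := ⟨h4, hz⟩
      rw [← hu'] at this
      exact ⟨hz, w, hw, this.1.1, this.1.2⟩
  rw [h2]
  exact (isOpen_biUnion fun w _ => hu w).measurableSet.inter hX.measurableSet

theorem UU_mono {f g : ℂ → ℂ} {ε t t' : ℝ} (h : t ≤ t') : UU X f g ε t ⊆ UU X f g ε t' := by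
  rintro z ⟨hz, w, hw, h1, h2⟩
  exact ⟨hz, w, hw, h1.trans_le h, h2⟩

theorem UU_small (hX : IsCompact X) {f g : ℂ → ℂ} (hf : ContinuousOn f X)
    (hg : ContinuousOn g X) (hd : ∀ z ∈ X, HasDerivWithinAt f (g z) X z) {ε κ : ℝ} (hε : 0 < ε)
    (hκ : 0 < κ) : ∃ t : ℝ, 0 < t ∧ ∀ r, r ≤ t → volume.real (UU X f g ε r) < κ := by
  have hfin : ∀ t, volume (UU X f g ε t) ≠ ⊤ := fun t =>
    ((measure_mono (fun z hz => hz.1 : UU X f g ε t ⊆ X)).trans_lt hX.measure_lt_top).ne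
  have h1 : ⋂ k : ℕ, UU X f g ε (1 / ((k : ℝ) + 1)) = ∅ := by
    rw [Set.eq_empty_iff_forall_notMem]
    intro z hz
    rw [mem_iInter] at hz
    have hzX : z ∈ X := (hz 0).1
    have h2 := (hasDerivWithinAt_iff_isLittleO.1 (hd z hzX))
    rw [Asymptotics.isLittleO_iff] at h2
    have h3 := h2 hε
    rw [eventually_nhdsWithin_iff, Metric.eventually_nhds_iff] at h3
    obtain ⟨t, ht, h4⟩ := h3
    obtain ⟨k, hk⟩ := exists_nat_one_div_lt ht
    obtain ⟨-, w, hw, h5, h6⟩ := hz k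
    have h7 := h4 (y := w) (by rw [dist_eq_norm]; exact h5.trans hk) hw
    rw [smul_eq_mul, mul_comm (w - z)] at h7
    linarith
  have h2 := tendsto_measure_iInter_atTop (μ := volume)
    (s := fun k : ℕ => UU X f g ε (1 / ((k : ℝ) + 1)))
    (fun k => (UU_measurable hX hf hg ε _).nullMeasurableSet)
    (fun k l hkl => UU_mono (one_div_le_one_div_of_le (by positivity)
      (by have : (k : ℝ) ≤ l := by exact_mod_cast hkl
          linarith))) ⟨0, hfin _⟩
  rw [h1, measure_empty] at h2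
  have h3 := (ENNReal.tendsto_toReal ENNReal.zero_ne_top).comp h2
  rw [ENNReal.toReal_zero] at h3
  obtain ⟨k, hk⟩ := ((tendsto_order.1 h3).2 κ hκ).exists
  refine ⟨1 / ((k : ℝ) + 1), by positivity, fun r hr => ?_⟩
  exact (measureReal_mono (UU_mono hr) (hfin _)).trans_lt hk

/-! ### Summing over the grid -/

theorem sum_ker {W : Set ℂ} (hW : MeasurableSet W) (hfin : volume W ≠ ⊤) (δ : ℝ) (N : ℕ) (z : ℂ) :
    ∑ p ∈ JJ N, ∫ s in QQ δ N p ∩ W, ‖(z - s)⁻¹‖ ≤ 9 * ∫ s in W, ‖(z - s)⁻¹‖ := by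
  classical
  have hm : ∀ p, MeasurableSet (QQ δ N p ∩ W) := fun p => (QQ_closed δ N p).measurableSet.inter hW
  have hint : Integrable (W.indicator fun s => ‖(z - s)⁻¹‖) :=
    (integrableOn_ker hfin z).integrable_indicator hW
  have hint' : ∀ p, Integrable ((QQ δ N p ∩ W).indicator fun s => ‖(z - s)⁻¹‖) := fun p =>
    (integrableOn_ker ((measure_mono inter_subset_right).trans_lt
      (lt_top_iff_ne_top.2 hfin)).ne z).integrable_indicator (hm p)
  simp only [← integral_indicator (hm _)]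
  rw [← integral_indicator hW, ← integral_const_mul, ← integral_finsetSum _ fun p _ => hint' p]
  refine integral_mono (integrable_finsetSum _ fun p _ => hint' p) (hint.const_mul 9) fun s => ?_
  show ∑ p ∈ JJ N, (QQ δ N p ∩ W).indicator (fun s => ‖(z - s)⁻¹‖) s ≤ _
  by_cases hs : s ∈ W
  · rw [indicator_of_mem hs]
    have h1 : ∀ p, (QQ δ N p ∩ W).indicator (fun s => ‖(z - s)⁻¹‖) s =
        if s ∈ QQ δ N p then ‖(z - s)⁻¹‖ else 0 := by
      intro p
      by_cases h : s ∈ QQ δ N p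
      · rw [indicator_of_mem (show s ∈ QQ δ N p ∩ W from ⟨h, hs⟩), if_pos h]
      · rw [indicator_of_notMem (fun h' => h h'.1), if_neg h]
    rw [Finset.sum_congr rfl fun p _ => h1 p, ← Finset.sum_filter, Finset.sum_const,
      nsmul_eq_mul]
    refine mul_le_mul_of_nonneg_right ?_ (norm_nonneg _)
    have := overlap δ N s
    exact_mod_cast this
  · rw [indicator_of_notMem hs]
    have h1 : ∀ p ∈ JJ N, (QQ δ N p ∩ W).indicator (fun s => ‖(z - s)⁻¹‖) s = 0 := fun p _ =>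
      indicator_of_notMem (fun h' => hs h'.2) _
    rw [Finset.sum_eq_zero h1]
    simp

theorem small {c η : ℝ} (hc : 0 ≤ c) (hη : 0 < η) : ∃ ε : ℝ, 0 < ε ∧ c * ε ≤ η := by
  refine ⟨η / (c + 1), by positivity, ?_⟩
  rw [mul_div_assoc', div_le_iff₀ (by linarith)]
  nlinarith

open Classical in
/-- the estimate for one square -/
theorem one_square (hX : IsCompact X) (hne : X.Nonempty) {f : ℂ → ℂ} (hf : ContinuousOn f X)
    {φ : ℂ → ℂ} (hφ : CC φ) {A A' C : ℝ} (hA0 : 0 ≤ A) (hA : ∀ s, ‖φ s‖ ≤ A)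
    (hA'0 : 0 ≤ A') (hA' : ∀ s, ‖dbar φ s‖ ≤ A') {δ : ℝ} (hδ : 0 < δ) (hδ1 : δ ≤ 1)
    {N : ℕ} {p : ℕ × ℕ} (hC0 : 0 ≤ C) (hC : ∀ z, ‖dbar (pp δ N p) z‖ ≤ C * δ⁻¹)
    {c : ℝ} (hc : 0 ≤ c) (a b : ℂ)
    (hl : ∀ s ∈ X ∩ QQ δ N p, ‖f s - (a + b * s)‖ ≤ c * (5 * δ)) :
    ∃ v : ℂ → ℂ, Apx X v ∧ ∀ z ∈ X, ‖V X (fun z => φ z * pp δ N p z) f z - v z‖ ≤
      (if z ∈ QQ δ N p then A * (c * (5 * δ)) else 0) +
        Real.pi⁻¹ * ((5 * (A' + A * C)) * (c * ∫ s in QQ δ N p, ‖(z - s)⁻¹‖)) := by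
  classical
  have hψ : CC (fun z => φ z * pp δ N p z) := hφ.mul (pp_contDiff δ N p)
  refine ⟨V X (fun z => φ z * pp δ N p z) (fun s => a + b * s), V_affine hX hne hψ a b,
    fun z hz => ?_⟩
  have hlc : ContinuousOn (fun s : ℂ => a + b * s) X := by fun_prop
  rw [V_sub hX hf hlc hψ z, add_sub_cancel_left]
  have hQc : IsCompact (QQ δ N p) := by
    refine Metric.isCompact_of_isClosed_isBounded (QQ_closed δ N p) ?_
    rcases (QQ δ N p).eq_empty_or_nonempty with h | ⟨x, hx⟩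
    · rw [h]; exact Bornology.isBounded_empty
    · refine (isBounded_ball (x := x) (r := 5 * δ)).subset fun w hw => ?_
      rw [mem_ball, dist_eq_norm]
      exact QQ_dist hδ hx hw
  have hsupp : ∀ s, s ∉ QQ δ N p → dbar (fun z => φ z * pp δ N p z) s = 0 := by
    intro s hs
    refine dbar_zero fun h => hs ?_
    exact pp_tsupport δ N p (tsupport_mul_subset_right (f := φ) (g := pp δ N p) h)
  have hdb : ∀ s, ‖dbar (fun z => φ z * pp δ N p z) s‖ ≤ (A' + A * C) * δ⁻¹ := by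
    intro s
    rw [dbar_mul hφ.diff (pp_contDiff δ N p)]
    have hinv : 1 ≤ δ⁻¹ := (one_le_inv₀ hδ).2 hδ1
    calc ‖dbar φ s * pp δ N p s + φ s * dbar (pp δ N p) s‖
        ≤ ‖dbar φ s‖ * ‖pp δ N p s‖ + ‖φ s‖ * ‖dbar (pp δ N p) s‖ := by
          refine (norm_add_le _ _).trans ?_
          rw [norm_mul, norm_mul]
      _ ≤ A' * 1 + A * (C * δ⁻¹) := add_le_add
          (mul_le_mul (hA' s) (pp_norm _ _ _ _) (norm_nonneg _) hA'0)
          (mul_le_mul (hA s) (hC s) (norm_nonneg _) hA0)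
      _ ≤ A' * δ⁻¹ + A * (C * δ⁻¹) := add_le_add (mul_le_mul_of_nonneg_left hinv hA'0) le_rfl
      _ = (A' + A * C) * δ⁻¹ := by ring
  have hAC : 0 ≤ A' + A * C := by positivity
  have hmain := V_le (X := X) (g := fun s => f s - (a + b * s))
    (ψ := fun z => φ z * pp δ N p z) hQc (M := 5 * (A' + A * C) * c) (by positivity)
    (fun s hs => ?_) hsupp z
  · refine hmain.trans (add_le_add ?_ ?_)
    · by_cases hzQ : z ∈ QQ δ N p
      · rw [if_pos hzQ]
        refine mul_le_mul ?_ (hl z ⟨hz, hzQ⟩) (norm_nonneg _) hA0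
        rw [norm_mul]
        calc ‖φ z‖ * ‖pp δ N p z‖ ≤ A * 1 :=
              mul_le_mul (hA z) (pp_norm _ _ _ _) (norm_nonneg _) hA0
          _ = A := mul_one A
      · rw [if_neg hzQ]
        have : pp δ N p z = 0 := image_eq_zero_of_notMem_tsupport
          fun h => hzQ (pp_tsupport δ N p h)
        rw [this, mul_zero, norm_zero, zero_mul]
    · refine le_of_eq ?_
      ring
  · calc ‖f s - (a + b * s)‖ * ‖dbar (fun z => φ z * pp δ N p z) s‖
        ≤ (c * (5 * δ)) * ((A' + A * C) * δ⁻¹) :=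
          mul_le_mul (hl s hs) (hdb s) (norm_nonneg _) (by positivity)
      _ = 5 * (A' + A * C) * c := by
          field_simp

open Classical in
/-- the main estimate -/
theorem gd_of_lip (hX : IsCompact X) (hne : X.Nonempty) {f g : ℂ → ℂ} (hf : ContinuousOn f X)
    (hg : ContinuousOn g X) (hd : ∀ z ∈ X, HasDerivWithinAt f (g z) X z) {x₀ : ℂ} {r : ℝ}
    (hr : 0 < r) {n : ℝ} (hn : 0 ≤ n)
    (hlip : ∀ z ∈ ball x₀ r, ¬ Gd X f z → ∀ w ∈ X, ‖f w - f z‖ ≤ n * ‖w - z‖) :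
    Gd X f x₀ := by
  refine ⟨r, hr, fun φ hφ hφs => ?_⟩
  set K : Set ℂ := {z | ¬ Gd X f z} ∩ tsupport φ with hK
  have hEc : IsClosed {z | ¬ Gd X f z} := (isOpen_Gd f).isClosed_compl
  have hKc : IsCompact K := hφ.supp.isCompact.inter_left hEc
  have hKX : K ⊆ X := by
    intro z hz
    by_contra hcon
    exact hz.1 (gd_off hX f hcon)
  obtain ⟨A, hA0, hA⟩ := hφ.bound
  obtain ⟨A', hA'0, hA'⟩ := hφ.dbar_bound
  obtain ⟨C, hC0, hC⟩ := pp_dbar
  obtain ⟨R, hR0, hR⟩ := hφ.supp_bound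
  set B : Set ℂ := closedBall (0 : ℂ) (R + 5) with hB
  have hBf : volume B ≠ ⊤ := (isCompact_closedBall _ _).measure_lt_top.ne
  have hpi := Real.pi_pos
  refine Apx.lim fun η hη => ?_
  set L : ℝ := Real.pi⁻¹ * (5 * (A' + A * C)) * 9 with hL
  have hL0 : 0 ≤ L := by positivity
  have hη4 : 0 < η / 4 := by linarith
  obtain ⟨ε, hε, hε4⟩ := small (c := L * (2 * Real.pi + volume.real B)) (by positivity) hη4
  obtain ⟨ρ, hρ, hρ4⟩ := small (c := L * (n * (2 * Real.pi))) (by positivity) hη4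
  obtain ⟨κ, hκ, hκ4⟩ := small (c := L * (n * ρ⁻¹)) (by positivity) hη4
  obtain ⟨t1, ht1, hU⟩ := UU_small hX hf hg hd hε (show 0 < κ / 2 by linarith)
  obtain ⟨t2, ht2, hN⟩ := vol_near hKc (show 0 < κ / 2 by linarith)
  obtain ⟨t3, ht3, hδ4⟩ := small (c := 9 * (A * ((ε + n) * 5))) (by positivity) hη4
  obtain ⟨δ, hδ, hδ1, hδt1, hδt2, hδt3⟩ : ∃ δ : ℝ, 0 < δ ∧ δ ≤ 1 ∧ 5 * δ ≤ t1 ∧ 5 * δ ≤ t2 ∧
      δ ≤ t3 := by
    refine ⟨min (min 1 (t1 / 5)) (min (t2 / 5) t3), by positivity, ?_, ?_, ?_, ?_⟩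
    · exact (min_le_left _ _).trans (min_le_left _ _)
    · have := (min_le_left (min 1 (t1 / 5)) (min (t2 / 5) t3)).trans (min_le_right _ _)
      linarith
    · have := (min_le_right (min 1 (t1 / 5)) (min (t2 / 5) t3)).trans (min_le_left _ _)
      linarith
    · exact (min_le_right _ _).trans (min_le_right _ _)
  set U : Set ℂ := UU X f g ε (5 * δ) with hUdef
  set W : Set ℂ := U ∪ (cthickening (5 * δ) K \ K) with hW
  have hUm : MeasurableSet U := UU_measurable hX hf hg ε _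
  have hWm : MeasurableSet W :=
    hUm.union (isClosed_cthickening.measurableSet.diff hKc.measurableSet)
  have hUf : volume U ≠ ⊤ :=
    ((measure_mono (fun z hz => hz.1 : U ⊆ X)).trans_lt hX.measure_lt_top).ne
  have hTf : volume (cthickening (5 * δ) K \ K) ≠ ⊤ :=
    ((measure_mono sdiff_subset).trans_lt hKc.cthickening.measure_lt_top).ne
  have hWf : volume W ≠ ⊤ := ((measure_union_le _ _).trans_lt
    (ENNReal.add_lt_top.2 ⟨lt_top_iff_ne_top.2 hUf, lt_top_iff_ne_top.2 hTf⟩)).ne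
  have hWv : volume.real W ≤ κ := by
    have h1 := measureReal_union_le (μ := volume) U (cthickening (5 * δ) K \ K)
    have h2 := (hU _ hδt1).le
    have h3 := (hN _ hδt2).le
    linarith
  obtain ⟨N, hNR⟩ := exists_nat_ge (R / δ)
  -- one square
  have key : ∀ p : ℕ × ℕ, ∃ v : ℂ → ℂ, Apx X v ∧ ∀ z ∈ X,
      ‖V X (fun z => φ z * pp δ N p z) f z - v z‖ ≤
      (if z ∈ QQ δ N p then A * ((ε + n) * (5 * δ)) else 0) +
        Real.pi⁻¹ * ((5 * (A' + A * C)) * (ε * (∫ s in QQ δ N p ∩ B, ‖(z - s)⁻¹‖) +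
          n * ∫ s in QQ δ N p ∩ W, ‖(z - s)⁻¹‖)) := by
    intro p
    have hI0 : ∀ (S : Set ℂ) (z : ℂ), 0 ≤ ∫ s in S, ‖(z - s)⁻¹‖ := fun S z =>
      integral_nonneg fun s => norm_nonneg _
    by_cases hKQ : (K ∩ QQ δ N p).Nonempty
    · have hsB : QQ δ N p ⊆ B := by
        obtain ⟨x, hx1, hx2⟩ := hKQ
        intro w hw
        have h1 := hR hx1.2
        rw [mem_closedBall_zero_iff] at h1
        rw [hB, mem_closedBall_zero_iff]
        have h2 := QQ_dist hδ hx2 hw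
        have h3 : ‖w‖ ≤ ‖w - x‖ + ‖x‖ := by
          have := norm_add_le (w - x) x
          rwa [sub_add_cancel] at this
        linarith
      by_cases hgoodp : ∃ x ∈ K ∩ QQ δ N p, x ∉ U
      · obtain ⟨x, ⟨hxK, hxQ⟩, hxU⟩ := hgoodp
        obtain ⟨v, hv, hvb⟩ := one_square hX hne hf hφ hA0 hA hA'0 hA' hδ hδ1 hC0
          (hC δ hδ N p) hε.le (f x - g x * x) (g x) (fun s hs => by
            have h1 := QQ_dist hδ hxQ hs.2
            have h2 : ‖f s - f x - g x * (s - x)‖ ≤ ε * ‖s - x‖ := by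
              by_contra hcon
              rw [not_le] at hcon
              exact hxU ⟨hKX hxK, s, hs.1, h1, hcon⟩
            have h3 : f s - (f x - g x * x + g x * s) = f s - f x - g x * (s - x) := by ring
            rw [h3]
            exact h2.trans (mul_le_mul_of_nonneg_left h1.le hε.le))
        refine ⟨v, hv, fun z hz => (hvb z hz).trans ?_⟩
        refine add_le_add ?_ ?_
        · split_ifs
          · refine mul_le_mul_of_nonneg_left ?_ hA0
            exact mul_le_mul_of_nonneg_right (by linarith) (by positivity)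
          · exact le_rfl
        · refine mul_le_mul_of_nonneg_left (mul_le_mul_of_nonneg_left ?_ (by positivity))
            (by positivity)
          rw [inter_eq_left.2 hsB]
          have := mul_nonneg hn (hI0 (QQ δ N p ∩ W) z)
          linarith
      · push Not at hgoodp
        obtain ⟨x, hxK, hxQ⟩ := hKQ
        have hsW : QQ δ N p ⊆ W := by
          intro w hw
          by_cases hwK : w ∈ K
          · exact Or.inl (hgoodp w ⟨hwK, hw⟩)
          · refine Or.inr ⟨?_, hwK⟩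
            refine mem_cthickening_of_dist_le w x _ K hxK ?_
            rw [dist_eq_norm]
            exact (QQ_dist hδ hxQ hw).le
        obtain ⟨v, hv, hvb⟩ := one_square hX hne hf hφ hA0 hA hA'0 hA' hδ hδ1 hC0
          (hC δ hδ N p) hn (f x) 0 (fun s hs => by
            have h1 := QQ_dist hδ hxQ hs.2
            rw [zero_mul, add_zero]
            exact (hlip x (hφs hxK.2) hxK.1 s hs.1).trans (mul_le_mul_of_nonneg_left h1.le hn))
        refine ⟨v, hv, fun z hz => (hvb z hz).trans ?_⟩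
        refine add_le_add ?_ ?_
        · split_ifs
          · refine mul_le_mul_of_nonneg_left ?_ hA0
            exact mul_le_mul_of_nonneg_right (by linarith) (by positivity)
          · exact le_rfl
        · refine mul_le_mul_of_nonneg_left (mul_le_mul_of_nonneg_left ?_ (by positivity))
            (by positivity)
          rw [inter_eq_left.2 hsW]
          have := mul_nonneg hε.le (hI0 (QQ δ N p ∩ B) z)
          linarith
    · refine ⟨V X (fun z => φ z * pp δ N p z) f, ?_, fun z hz => ?_⟩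
      · refine apx_of_gd hX hf (hφ.mul (pp_contDiff δ N p)) fun x hx => ?_
        by_contra hcon
        refine hKQ ⟨x, ⟨hcon, tsupport_mul_subset_left hx⟩, pp_tsupport δ N p
          (tsupport_mul_subset_right (f := φ) (g := pp δ N p) hx)⟩
      · rw [sub_self, norm_zero]
        have h1 := hI0 (QQ δ N p ∩ B) z
        have h2 := hI0 (QQ δ N p ∩ W) z
        split_ifs <;> positivity
  choose v hv hvb using key
  refine ⟨fun z => ∑ p ∈ JJ N, v p z, Apx.sum _ fun p _ => hv p, fun z hz => ?_⟩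
  rw [V_grid hX hf hφ hδ hR hNR z, ← Finset.sum_sub_distrib]
  refine (norm_sum_le _ _).trans ((Finset.sum_le_sum fun p _ => hvb p z hz).trans ?_)
  rw [Finset.sum_add_distrib]
  have hfirst : ∑ p ∈ JJ N, (if z ∈ QQ δ N p then A * ((ε + n) * (5 * δ)) else 0) ≤ η / 4 := by
    rw [← Finset.sum_filter, Finset.sum_const, nsmul_eq_mul]
    have h9 : (((JJ N).filter fun p => z ∈ QQ δ N p).card : ℝ) ≤ 9 := by
      exact_mod_cast overlap δ N z
    calc (((JJ N).filter fun p => z ∈ QQ δ N p).card : ℝ) * (A * ((ε + n) * (5 * δ)))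
        ≤ 9 * (A * ((ε + n) * (5 * δ))) := mul_le_mul_of_nonneg_right h9 (by positivity)
      _ = 9 * (A * ((ε + n) * 5)) * δ := by ring
      _ ≤ 9 * (A * ((ε + n) * 5)) * t3 := mul_le_mul_of_nonneg_left hδt3 (by positivity)
      _ ≤ η / 4 := hδ4
  have hsecond : ∑ p ∈ JJ N, Real.pi⁻¹ * ((5 * (A' + A * C)) *
      (ε * (∫ s in QQ δ N p ∩ B, ‖(z - s)⁻¹‖) + n * ∫ s in QQ δ N p ∩ W, ‖(z - s)⁻¹‖)) ≤
      3 * (η / 4) := by
    rw [← Finset.mul_sum, ← Finset.mul_sum, Finset.sum_add_distrib, ← Finset.mul_sum,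
      ← Finset.mul_sum]
    have h1 := sum_ker isClosed_closedBall.measurableSet hBf δ N z
    have h2 := sum_ker hWm hWf δ N z
    have h3 := ker_le hBf one_pos z
    have h4 := ker_le hWf hρ z
    rw [inv_one, mul_one, mul_one] at h3
    have h5 : ∫ s in W, ‖(z - s)⁻¹‖ ≤ 2 * Real.pi * ρ + κ * ρ⁻¹ :=
      h4.trans (add_le_add le_rfl (mul_le_mul_of_nonneg_right hWv (inv_nonneg.2 hρ.le)))
    calc Real.pi⁻¹ * ((5 * (A' + A * C)) *
        (ε * (∑ p ∈ JJ N, ∫ s in QQ δ N p ∩ B, ‖(z - s)⁻¹‖) +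
          n * ∑ p ∈ JJ N, ∫ s in QQ δ N p ∩ W, ‖(z - s)⁻¹‖))
        ≤ Real.pi⁻¹ * ((5 * (A' + A * C)) *
        (ε * (9 * (2 * Real.pi + volume.real B)) + n * (9 * (2 * Real.pi * ρ + κ * ρ⁻¹)))) := by
          refine mul_le_mul_of_nonneg_left (mul_le_mul_of_nonneg_left (add_le_add
            (mul_le_mul_of_nonneg_left ?_ hε.le) (mul_le_mul_of_nonneg_left ?_ hn))
            (by positivity)) (by positivity)
          · exact h1.trans (mul_le_mul_of_nonneg_left h3 (by norm_num))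
          · exact h2.trans (mul_le_mul_of_nonneg_left h5 (by norm_num))
      _ = L * (2 * Real.pi + volume.real B) * ε + L * (n * (2 * Real.pi)) * ρ +
          L * (n * ρ⁻¹) * κ := by
          rw [hL]
          ring
      _ ≤ 3 * (η / 4) := by linarith
  linarith

/-- **Theorem.** A function on a compact plane set with a continuous derivative is a uniform limit
of rational functions. -/
theorem apx_of_C1 (hX : IsCompact X) (hne : X.Nonempty) {f g : ℂ → ℂ} (hf : ContinuousOn f X)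
    (hg : ContinuousOn g X) (hd : ∀ z ∈ X, HasDerivWithinAt f (g z) X z) : Apx X f := by
  refine apx_of_all hX hf ?_
  by_contra hcon
  push Not at hcon
  obtain ⟨x₁, hx₁⟩ := hcon
  set E : Set ℂ := {z | ¬ Gd X f z} with hE
  have hEc : IsClosed E := (isOpen_Gd f).isClosed_compl
  have hEX : E ⊆ X := by
    intro z hz
    by_contra hcon
    exact hz (gd_off hX f hcon)
  have : Nonempty E := ⟨⟨x₁, hx₁⟩⟩
  have : CompleteSpace E := hEc.completeSpace_coe
  set S : ℕ → Set E := fun n => {z | ∀ w ∈ X, ‖f w - f z‖ ≤ n * ‖w - z‖} with hS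
  have hfE : Continuous (fun z : E => f z) := by
    have h1 : ContinuousOn f E := hf.mono hEX
    exact continuousOn_iff_continuous_domRestrict.1 h1
  have hSc : ∀ n, IsClosed (S n) := by
    intro n
    have : S n = ⋂ w ∈ X, {z : E | ‖f w - f z‖ ≤ n * ‖w - (z : ℂ)‖} := by
      ext z
      simp [hS]
    rw [this]
    exact isClosed_biInter fun w _ => isClosed_le (continuous_const.sub hfE).norm (by fun_prop)
  obtain ⟨M, hM⟩ := hX.exists_bound_of_continuousOn hf
  have hSU : ⋃ n, S n = univ := by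
    rw [Set.eq_univ_iff_forall]
    intro z
    have hzX := hEX z.2
    have h2 := (hasDerivWithinAt_iff_isLittleO.1 (hd z hzX))
    rw [Asymptotics.isLittleO_iff] at h2
    have h3 := h2 one_pos
    rw [eventually_nhdsWithin_iff, Metric.eventually_nhds_iff] at h3
    obtain ⟨t, ht, h4⟩ := h3
    obtain ⟨n, hn⟩ := exists_nat_ge (max (‖g z‖ + 1) (2 * M / t))
    refine mem_iUnion.2 ⟨n, fun w hw => ?_⟩
    by_cases hwz : dist w (z : ℂ) < t
    · have h5 := h4 hwz hw
      rw [one_mul, smul_eq_mul] at h5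
      have h6 : f w - f z = (f w - f z - (w - z) * g z) + (w - z) * g z := by ring
      rw [h6]
      refine (norm_add_le _ _).trans ?_
      rw [norm_mul]
      have h7 : ‖g (z : ℂ)‖ + 1 ≤ n := (le_max_left _ _).trans hn
      nlinarith [norm_nonneg (w - (z : ℂ))]
    · rw [not_lt, dist_eq_norm] at hwz
      have h5 := norm_sub_le (f w) (f z)
      have h6 := hM w hw
      have h7 := hM z hzX
      have h8 : 2 * M / t ≤ n := (le_max_right _ _).trans hn
      rw [div_le_iff₀ ht] at h8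
      have h9 : (n : ℝ) * t ≤ n * ‖w - (z : ℂ)‖ := mul_le_mul_of_nonneg_left hwz (Nat.cast_nonneg n)
      linarith
  obtain ⟨n, ⟨x₀, hx₀⟩⟩ := nonempty_interior_of_iUnion_of_closed hSc hSU
  obtain ⟨r, hr, hball⟩ := Metric.isOpen_iff.1 isOpen_interior x₀ hx₀
  refine x₀.2 (gd_of_lip hX hne hf hg hd hr (Nat.cast_nonneg n) fun z hz hzE w hw => ?_)
  have h1 : (⟨z, hzE⟩ : E) ∈ ball x₀ r := hz
  exact interior_subset (hball h1) w hw

end Pool.Agent.R546.RX
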